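import Pool.Agent.H591R3.MPc

set_option autoImplicit false

open Set Filter Topology

namespace Pool.Agent.Results.MP_97ba4e_an.SchurCharacterization

/-- `E` has the Schur property: every weakly convergent sequence converges in norm. -/
def SchurProperty (E : Type) [NormedAddCommGroup E] [NormedSpace ℝ E] : Prop :=
  ∀ (u : ℕ → E) (x : E), (∀ ψ : E →L[ℝ] ℝ, Tendsto (fun n => ψ (u n)) atTop (𝓝 (ψ x))) →
    Tendsto u atTop (𝓝 x)

/-- `N` is a norm on `E` equivalent to the given norm. -/
def IsEquivalentNorm {E : Type} [NormedAddCommGroup E] [NormedSpace ℝ E] (N : Seminorm ℝ E) : Prop :=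
  ∃ c C : ℝ, 0 < c ∧ 0 < C ∧ ∀ x : E, c * ‖x‖ ≤ N x ∧ N x ≤ C * ‖x‖

/-- For the norm `N`, the set `G` is a Chebyshev set with metric projection `p`: for every `x` the
point `p x` is the one and only nearest point to `x` in `G`. -/
def IsMetricProjection {E : Type} [NormedAddCommGroup E] [NormedSpace ℝ E] (N : Seminorm ℝ E)
    (G : Set E) (p : E → E) : Prop :=
  ∀ x g : E, (g ∈ G ∧ ∀ g' ∈ G, N (x - g) ≤ N (x - g')) ↔ g = p x

/-- `p` is continuous from `E` with its weak topology to `E` with its weak topology. -/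
def WeaklyContinuous {E : Type} [NormedAddCommGroup E] [NormedSpace ℝ E] (p : E → E) : Prop :=
  Continuous (fun x : WeakSpace ℝ E => toWeakSpace ℝ E (p ((toWeakSpace ℝ E).symm x)))

open Pool.Agent.H591R3.MP in
theorem positive {E : Type} [NormedAddCommGroup E] [NormedSpace ℝ E] (h : SchurProperty E)
    {p : E → E} (hp : WeaklyContinuous p) : Continuous p := by
  rw [continuous_iff_seqContinuous]
  intro u x hu
  apply h
  intro ψ
  have h1 := (weak_cont_iff p).1 hp ψ
  have h2 : Tendsto (fun n => toWeakSpaceCLM ℝ E (u n)) atTop (𝓝 (toWeakSpaceCLM ℝ E x)) :=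
    ((toWeakSpaceCLM ℝ E).continuous.tendsto x).comp hu
  exact (h1.tendsto (toWeakSpaceCLM ℝ E x)).comp h2

open Pool.Agent.H591R3.MP in
theorem negative {E : Type} [NormedAddCommGroup E] [NormedSpace ℝ E] (h : ¬ SchurProperty E) :
    ∃ (N : Seminorm ℝ E) (G : Submodule ℝ E) (p : E → E), IsEquivalentNorm N ∧
      IsClosed (G : Set E) ∧ Module.finrank ℝ (E ⧸ G) = 2 ∧ IsMetricProjection N G p ∧
      WeaklyContinuous p ∧ ¬ Continuous p := by
  obtain ⟨D⟩ := exists_dat h
  refine ⟨D.N, D.P.ker, D.proj, ?_, ?_, ?_, ?_, D.proj_weak, D.proj_not_continuous⟩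
  · have hd := D.del_pos
    exact ⟨1 / (‖D.J‖ + 1 + D.del), 1 / D.del, by positivity, by positivity,
      fun x => ⟨D.N_lower x, D.N_upper x⟩⟩
  · exact D.P.isClosed_ker
  · have hsurj : Function.Surjective (D.P : E →ₗ[ℝ] ℂ) := fun z => ⟨D.J z, D.PJ z⟩
    have e := (D.P : E →ₗ[ℝ] ℂ).quotKerEquivOfSurjective hsurj
    have h2 := e.finrank_eq
    rw [Complex.finrank_real_complex] at h2
    exact h2
  · intro x g
    have h1 := D.proj_spec x g
    simp only [SetLike.mem_coe, LinearMap.mem_ker, ContinuousLinearMap.coe_coe]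
    exact h1

/-! ### the Hilbert space -/

/-- real sequence space `ℓ²` -/
abbrev ell2 : Type := lp (fun _ : ℕ => ℝ) 2

theorem not_schur_ell2 : ¬ SchurProperty ell2 := by
  intro h
  let b : HilbertBasis ℕ ℝ ell2 := HilbertBasis.ofRepr (LinearIsometryEquiv.refl ℝ ell2)
  have ho := b.orthonormal
  have h1 : Tendsto (fun n => b n) atTop (𝓝 (0 : ell2)) := by
    apply h
    intro ψ
    rw [map_zero]
    set v := (InnerProductSpace.toDual ℝ ell2).symm ψ with hv
    have h2 : ∀ x, ψ x = inner ℝ v x := by
      intro x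
      rw [hv, InnerProductSpace.toDual_symm_apply]
    have h3 : Summable (fun n => ‖inner ℝ (b n) v‖ ^ 2) := ho.inner_products_summable v
    have h4 := h3.tendsto_atTop_zero
    have h5 : Tendsto (fun n => ‖inner ℝ (b n) v‖) atTop (𝓝 0) := by
      have := (Real.continuous_sqrt.tendsto 0).comp h4
      simpa [Function.comp_def, Real.sqrt_sq_eq_abs] using this
    rw [tendsto_zero_iff_norm_tendsto_zero]
    have h6 : (fun n => ‖ψ (b n)‖) = fun n => ‖inner ℝ (b n) v‖ := by
      funext n
      rw [h2, real_inner_comm]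
    rw [h6]
    exact h5
  have h2 := h1.norm
  have h3 : ∀ n, ‖b n‖ = 1 := fun n => ho.1 n
  simp only [h3, norm_zero] at h2
  exact one_ne_zero (tendsto_nhds_unique tendsto_const_nhds h2)

/-! ### from equivalent norms to normed spaces -/

/-- the space `E` with the norm `N` -/
def Ren {E : Type} [NormedAddCommGroup E] [NormedSpace ℝ E] (_N : Seminorm ℝ E) : Type := E

namespace Ren

variable {E : Type} [NormedAddCommGroup E] [NormedSpace ℝ E] (N : Seminorm ℝ E)

instance : AddCommGroup (Ren N) := inferInstanceAs (AddCommGroup E)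
instance : Module ℝ (Ren N) := inferInstanceAs (Module ℝ E)
instance : Norm (Ren N) := ⟨fun x => N (show E from x)⟩

theorem core (h : IsEquivalentNorm N) : NormedSpace.Core ℝ (Ren N) where
  norm_nonneg x := apply_nonneg N (show E from x)
  norm_smul c x := map_smul_eq_mul N c (show E from x)
  norm_triangle x y := map_add_le_add N (show E from x) (show E from y)
  norm_eq_zero_iff x := by
    obtain ⟨c, C, hc, hC, hcC⟩ := h
    constructor
    · intro h0
      have h1 := (hcC (show E from x)).1
      have h2 : N (show E from x) = 0 := h0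
      rw [h2] at h1
      have h3 : ‖(show E from x)‖ ≤ 0 := by
        by_contra hcon
        push Not at hcon
        have := mul_pos hc hcon
        linarith
      exact norm_le_zero_iff.1 h3
    · rintro rfl
      exact map_zero N

end Ren

/-- **The answer to Q1 is negative**, in the following strong form: a real normed space has an
equivalent norm with a Chebyshev set whose metric projection is weakly continuous but not norm
continuous if and only if it fails the Schur property, and the set can then be taken to be a closed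
linear subspace of codimension two. In particular there is a norm on the Hilbert space `ℓ²`,
equivalent to the usual one, with such a subspace. -/
theorem result :
    (∀ (E : Type) [NormedAddCommGroup E] [NormedSpace ℝ E],
      (SchurProperty E → ∀ (N : Seminorm ℝ E) (G : Set E) (p : E → E), IsEquivalentNorm N →
        IsMetricProjection N G p → WeaklyContinuous p → Continuous p) ∧
      (¬ SchurProperty E → ∃ (N : Seminorm ℝ E) (G : Submodule ℝ E) (p : E → E),
        IsEquivalentNorm N ∧ IsClosed (G : Set E) ∧ Module.finrank ℝ (E ⧸ G) = 2 ∧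
        IsMetricProjection N G p ∧ WeaklyContinuous p ∧ ¬ Continuous p)) ∧
    (∃ (E : Type) (_ : NormedAddCommGroup E) (_ : NormedSpace ℝ E) (G : Set E) (p : E → E),
      CompleteSpace E ∧ Nonempty (E ≃L[ℝ] ell2) ∧
      (∀ x g : E, (g ∈ G ∧ ∀ g' ∈ G, ‖x - g‖ ≤ ‖x - g'‖) ↔ g = p x) ∧
      WeaklyContinuous p ∧ ¬ Continuous p) := by
  refine ⟨fun E _ _ => ⟨fun h N G p _ _ hp => positive h hp, fun h => negative h⟩, ?_⟩
  obtain ⟨N, G, p, hN, -, -, hp1, hp2, hp3⟩ := negative not_schur_ell2
  letI i1 : NormedAddCommGroup (Ren N) := NormedAddCommGroup.ofCore (Ren.core N hN)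
  letI i2 : NormedSpace ℝ (Ren N) := NormedSpace.ofCore (Ren.core N hN)
  obtain ⟨c, C, hc, hC, hcC⟩ := hN
  let L : Ren N ≃ₗ[ℝ] ell2 :=
    { toFun := fun x => (show ell2 from x)
      invFun := fun x => (show Ren N from x)
      left_inv := fun _ => rfl
      right_inv := fun _ => rfl
      map_add' := fun _ _ => rfl
      map_smul' := fun _ _ => rfl }
  have hL1 : ∀ x : Ren N, ‖L x‖ ≤ c⁻¹ * ‖x‖ := by
    intro x
    have h1 := (hcC (show ell2 from x)).1
    rw [inv_mul_eq_div, le_div_iff₀ hc, mul_comm]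
    exact h1
  have hL2 : ∀ x : ell2, ‖L.symm x‖ ≤ C * ‖x‖ := fun x => (hcC x).2
  let T : Ren N ≃L[ℝ] ell2 := L.toContinuousLinearEquivOfBounds c⁻¹ C hL1 hL2
  refine ⟨Ren N, i1, i2, (fun x : Ren N => (show ell2 from x)) ⁻¹' (G : Set ell2),
    fun x => L.symm (p (L x)), ?_, ⟨T⟩, ?_, ?_, ?_⟩
  · exact (completeSpace_congr (e := T.toEquiv) T.isUniformEmbedding).2 inferInstance
  · intro x g
    exact hp1 (L x) (L g)
  · show Continuous _
    have h1 : (fun x : WeakSpace ℝ (Ren N) => toWeakSpace ℝ (Ren N)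
        (L.symm (p (L ((toWeakSpace ℝ (Ren N)).symm x))))) =
        (WeakSpace.map (T.symm : ell2 →L[ℝ] Ren N)) ∘
        (fun x : WeakSpace ℝ ell2 => toWeakSpace ℝ ell2 (p ((toWeakSpace ℝ ell2).symm x))) ∘
        (WeakSpace.map (T : Ren N →L[ℝ] ell2)) := rfl
    rw [h1]
    exact (WeakSpace.map (T.symm : ell2 →L[ℝ] Ren N)).continuous.comp
      (Continuous.comp hp2 (WeakSpace.map (T : Ren N →L[ℝ] ell2)).continuous)
  · intro h
    apply hp3
    have h1 : p = T ∘ (fun x => L.symm (p (L x))) ∘ T.symm := rfl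
    rw [h1]
    exact T.continuous.comp (h.comp T.symm.continuous)

end Pool.Agent.Results.MP_97ba4e_an.SchurCharacterization
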